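import Pool.Agent.Y714.KF.Stm

set_option autoImplicit false

/-!
Project KF (helper714), job SUM: sums over lattice points in dyadic shells.
-/

namespace Pool.Agent.Y496.KF

open Finset

theorem one_le_norm' {N : ℕ} {z : Fin N → ℤ} (h : z ≠ 0) : 1 ≤ ‖z‖ := by
  obtain ⟨i, hi⟩ := Function.ne_iff.mp h
  refine le_trans ?_ (norm_le_pi_norm z i)
  rw [Int.norm_eq_abs]
  exact_mod_cast Int.one_le_abs hi

theorem box_eq (N : ℕ) {X : ℝ} (hX : 0 ≤ X) : {z : Fin N → ℤ | ‖z‖ ≤ X} =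
    ↑(Fintype.piFinset fun _ : Fin N => Finset.Icc (-⌊X⌋) ⌊X⌋) := by
  ext z
  simp only [Set.mem_ofPred_eq, Fintype.coe_piFinset, Set.mem_pi, Set.mem_univ, forall_true_left, coe_Icc, Set.mem_Icc]
  rw [pi_norm_le_iff_of_nonneg hX]
  refine forall_congr' fun i => ?_
  rw [Int.norm_eq_abs, abs_le]
  constructor
  · rintro ⟨h1, h2⟩
    refine ⟨?_, Int.le_floor.mpr h2⟩
    have : -z i ≤ ⌊X⌋ := Int.le_floor.mpr (by push_cast; linarith)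
    linarith
  · rintro ⟨h1, h2⟩
    have h3 : -z i ≤ ⌊X⌋ := by linarith
    have h4 := Int.le_floor.mp h2
    have h5 := Int.le_floor.mp h3
    push_cast at h5
    exact ⟨by linarith, h4⟩

theorem box_card (N : ℕ) {X : ℝ} (hX : 1 ≤ X) :
    ((Fintype.piFinset fun _ : Fin N => Finset.Icc (-⌊X⌋) ⌊X⌋).card : ℝ) ≤ (3 * X) ^ N := by
  rw [Fintype.card_piFinset_const, Int.card_Icc]
  have h0 : 0 ≤ ⌊X⌋ := Int.floor_nonneg.mpr (by linarith)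
  push_cast
  refine pow_le_pow_left₀ (by positivity) ?_ N
  have h1 : (((⌊X⌋ + 1 - -⌊X⌋).toNat : ℕ) : ℝ) = ((⌊X⌋ + 1 - -⌊X⌋ : ℤ) : ℝ) := by
    have : (((⌊X⌋ + 1 - -⌊X⌋).toNat : ℕ) : ℤ) = ⌊X⌋ + 1 - -⌊X⌋ := Int.toNat_of_nonneg (by linarith)
    exact_mod_cast this
  rw [h1]
  push_cast
  have := Int.floor_le X
  linarith

theorem shell {N : ℕ} (k : ℕ) (S : Finset (Fin N → ℤ))
    (hS : ∀ z ∈ S, (2 : ℝ) ^ k ≤ ‖z‖ ∧ ‖z‖ ≤ 2 ^ (k + 1)) :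
    ∑ z ∈ S, ‖z‖ ^ 2 / ‖z‖ ^ N ≤ 4 * 6 ^ N * 4 ^ k := by
  have h2 : (1 : ℝ) ≤ 2 ^ (k + 1) := one_le_pow₀ (by norm_num)
  have hk : (0 : ℝ) < 2 ^ k := by positivity
  have hcard : (S.card : ℝ) ≤ (3 * 2 ^ (k + 1)) ^ N := by
    refine le_trans ?_ (box_card N h2)
    refine Nat.cast_le.mpr (card_le_card fun z hz => ?_)
    have h3 : z ∈ {z : Fin N → ℤ | ‖z‖ ≤ (2 : ℝ) ^ (k + 1)} := (hS z hz).2
    rw [box_eq N (by linarith)] at h3
    exact_mod_cast h3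
  have hterm : ∀ z ∈ S, ‖z‖ ^ 2 / ‖z‖ ^ N ≤ (2 ^ (k + 1)) ^ 2 / (2 ^ k) ^ N := by
    intro z hz
    obtain ⟨a, b⟩ := hS z hz
    exact div_le_div₀ (by positivity) (pow_le_pow_left₀ (norm_nonneg _) b 2) (by positivity)
      (pow_le_pow_left₀ hk.le a N)
  refine (sum_le_sum hterm).trans ?_
  rw [sum_const, nsmul_eq_mul]
  refine (mul_le_mul_of_nonneg_right hcard (by positivity)).trans (le_of_eq ?_)
  have e : (3 * (2 : ℝ) ^ (k + 1)) = 6 * 2 ^ k := by rw [pow_succ]; ring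
  rw [e, mul_pow]
  have e2 : ((2 : ℝ) ^ (k + 1)) ^ 2 = 4 * 4 ^ k := by
    rw [← pow_mul, show (k + 1) * 2 = 2 * (k + 1) by ring, pow_mul, pow_succ]
    norm_num
    ring
  rw [e2]
  field_simp

theorem dyadic {N : ℕ} {X : ℝ} (hX : 1 ≤ X) (S : Finset (Fin N → ℤ)) (hS : ∀ z ∈ S, z ≠ 0 ∧ ‖z‖ ≤ X) :
    ∑ z ∈ S, ‖z‖ ^ 2 / ‖z‖ ^ N ≤ 8 * 6 ^ N * X ^ 2 := by
  classical
  set g : (Fin N → ℤ) → ℕ := fun z => Nat.log 2 ⌊‖z‖⌋₊ with hg
  set K := Nat.log 2 ⌊X⌋₊ with hK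
  have hmaps : ∀ z ∈ S, g z ∈ range (K + 1) := by
    intro z hz
    rw [mem_range, Nat.lt_succ_iff]
    exact Nat.log_mono_right (Nat.floor_le_floor (hS z hz).2)
  rw [← sum_fiberwise_of_maps_to hmaps]
  have h1 : ∀ k ∈ range (K + 1), ∑ z ∈ S with g z = k, ‖z‖ ^ 2 / ‖z‖ ^ N ≤ 4 * 6 ^ N * 4 ^ k := by
    intro k _
    refine shell k _ fun z hz => ?_
    rw [mem_filter] at hz
    have hn1 := one_le_norm' (hS z hz.1).1
    have hf : ⌊‖z‖⌋₊ ≠ 0 := by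
      have : 1 ≤ ⌊‖z‖⌋₊ := Nat.le_floor (by exact_mod_cast hn1)
      omega
    constructor
    · have h2 : 2 ^ k ≤ ⌊‖z‖⌋₊ := by rw [← hz.2]; exact Nat.pow_log_le_self 2 hf
      have h3 : ((2 ^ k : ℕ) : ℝ) ≤ (⌊‖z‖⌋₊ : ℝ) := Nat.cast_le.mpr h2
      push_cast at h3
      exact h3.trans (Nat.floor_le (norm_nonneg _))
    · have h2 : ⌊‖z‖⌋₊ < 2 ^ (k + 1) := by rw [← hz.2]; exact Nat.lt_pow_succ_log_self (by norm_num) _
      have h3 : ‖z‖ < ((2 ^ (k + 1) : ℕ) : ℝ) := (Nat.floor_lt (norm_nonneg _)).mp h2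
      push_cast at h3
      exact h3.le
  refine (sum_le_sum h1).trans ?_
  rw [← mul_sum, geom_sum_eq (by norm_num)]
  have h4 : (4 : ℝ) ^ K ≤ X ^ 2 := by
    have h5 : 2 ^ K ≤ ⌊X⌋₊ := Nat.pow_log_le_self 2 (by
      have : 1 ≤ ⌊X⌋₊ := Nat.le_floor (by exact_mod_cast hX)
      omega)
    have h6 : ((2 ^ K : ℕ) : ℝ) ≤ (⌊X⌋₊ : ℝ) := Nat.cast_le.mpr h5
    push_cast at h6
    have h7 := h6.trans (Nat.floor_le (by linarith))
    calc (4 : ℝ) ^ K = (2 ^ K) ^ 2 := by rw [← pow_mul, mul_comm, pow_mul]; norm_num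
      _ ≤ X ^ 2 := pow_le_pow_left₀ (by positivity) h7 2
  have h6N : (0 : ℝ) < 6 ^ N := by positivity
  have h8 : ((4 : ℝ) ^ (K + 1) - 1) / (4 - 1) ≤ 2 * X ^ 2 := by
    rw [pow_succ]
    have : 0 < (4 : ℝ) ^ K := by positivity
    rw [div_le_iff₀ (by norm_num)]
    nlinarith
  calc 4 * 6 ^ N * (((4 : ℝ) ^ (K + 1) - 1) / (4 - 1)) ≤ 4 * 6 ^ N * (2 * X ^ 2) :=
        mul_le_mul_of_nonneg_left h8 (by positivity)
    _ = _ := by ring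

theorem sum : Pool.Agent.Y714.KF.S_SUM := by
  intro N _
  refine ⟨8 * 6 ^ N, by positivity, fun X hX S hS => ?_, fun X hX => ?_⟩
  · rcases lt_or_ge X 1 with h | h
    · have : S = ∅ := by
        refine eq_empty_of_forall_notMem fun z hz => ?_
        have := one_le_norm' (hS z hz).1
        linarith [(hS z hz).2]
      rw [this, sum_empty]
      positivity
    · exact dyadic h S hS
  · rw [box_eq N (by linarith)]
    refine ⟨finite_toSet _, ?_⟩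
    rw [Set.ncard_coe_finset]
    refine (box_card N hX).trans ?_
    rw [mul_pow]
    have h1 : (3 : ℝ) ^ N ≤ 6 ^ N := pow_le_pow_left₀ (by norm_num) (by norm_num) N
    have h2 : (0 : ℝ) ≤ X ^ N := by positivity
    nlinarith [pow_pos (show (0 : ℝ) < 6 by norm_num) N]

end Pool.Agent.Y496.KF
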